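import Pool.Agent.H18.XX.TB

/-!
# The exponential hierarchy in EQP: row CTN (the number of the instances, the sums of the errors)
-/

set_option autoImplicit false

namespace Pool.Agent.H40.XX

open Finset Pool.Agent.H6.NB Pool.Agent.H70.OQ Pool.Agent.H70.EH Pool.Agent.H70.EI Pool.Agent.H78.XQ
open Pool.Agent.H66.IP (Local ins sp dm IsZ scl mBp m0p)
open Pool.Agent.H66.IQ Pool.Agent.H66.AV
open Pool.Agent.H18.XX

theorem enc_inj (i : ℕ) : ∀ (j : ℕ) (x y : List Bool),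
    List.replicate i false ++ true :: x = List.replicate j false ++ true :: y → i = j ∧ x = y := by
  induction i with
  | zero =>
    intro j x y h
    cases j with
    | zero => simpa using h
    | succ j => simp [List.replicate_succ] at h
  | succ i ih =>
    intro j x y h
    cases j with
    | zero => simp [List.replicate_succ] at h
    | succ j =>
      rw [List.replicate_succ, List.replicate_succ, List.cons_append, List.cons_append] at h
      obtain ⟨h1, h2⟩ := ih j x y (List.cons_injective h)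
      exact ⟨by rw [h1], h2⟩

/-- the list of `a` -/
def en (a : ℕ × List Bool) : List Bool := List.replicate a.1 false ++ true :: a.2

theorem en_length (a : ℕ × List Bool) : (en a).length = a.1 + (a.2.length + 1) := by
  simp [en]

theorem cnt (r : ℕ) (F : Finset (ℕ × List Bool)) (h : ∀ a ∈ F, a.2.length + a.1 + 20 ≤ r) :
    F.card ≤ 2 ^ r := by
  classical
  have h1 : F.card ≤ ((Finset.range r).sigma fun m => (univ : Finset (Fin m → Bool))).card := by
    refine Finset.card_le_card_of_injOn (fun a => ⟨(en a).length, (en a).get⟩) ?_ ?_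
    · intro a ha
      have h2 := h a ha
      rw [Finset.mem_coe, Finset.mem_sigma, Finset.mem_range]
      refine ⟨?_, Finset.mem_univ _⟩
      simp only [en_length]
      omega
    · intro a _ b _ hab
      have h3 := congrArg (fun s : Σ m, Fin m → Bool => List.ofFn s.2) hab
      simp only [List.ofFn_get] at h3
      obtain ⟨h4, h5⟩ := enc_inj _ _ _ _ h3
      exact Prod.ext h4 h5
  refine h1.trans ?_
  rw [Finset.card_sigma]
  have h6 : ∑ m ∈ Finset.range r, (univ : Finset (Fin m → Bool)).card =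
      ∑ m ∈ Finset.range r, 2 ^ m := by
    refine Finset.sum_congr rfl fun m _ => ?_
    simp
  rw [h6]
  exact (Nat.geomSum_lt le_rfl fun k hk => Finset.mem_range.1 hk).le

theorem scl_ge (V : ℕ → Local) (a : ℕ × List Bool) : a.2.length + a.1 + 20 ≤ scl V a := by
  have h3 : scl V a = a.2.length + a.1 + (a.2.length ^ (V a.1).c + (V a.1).c) + 20 := rfl
  omega

theorem cntS (V : ℕ → Local) (E : Finset (ℕ × List Bool)) (r : ℕ) (F : Finset {a // a ∈ E})
    (h : ∀ a ∈ F, scl V a.1 ≤ r) : F.card ≤ 2 ^ r := by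
  rw [← Finset.card_map ⟨Subtype.val, Subtype.val_injective⟩]
  refine cnt r _ fun a ha => ?_
  obtain ⟨b, hb, rfl⟩ := Finset.mem_map.1 ha
  exact (scl_ge V b.1).trans (h b hb)

theorem cube_le (u : ℕ) (hu : 10 ≤ u) : u ^ 3 ≤ 2 ^ u := by
  induction u, hu using Nat.le_induction with
  | base => norm_num
  | succ n hn ih =>
    have h1 : (n + 1) ^ 3 ≤ 2 * n ^ 3 := by nlinarith [Nat.mul_le_mul hn hn, sq_nonneg n]
    calc (n + 1) ^ 3 ≤ 2 * n ^ 3 := h1
      _ ≤ 2 * 2 ^ n := Nat.mul_le_mul_left 2 ih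
      _ = 2 ^ (n + 1) := by ring

theorem term_le (u N : ℕ) (hu : 19 < u) (hN : N ≤ 2 ^ u) :
    2 * (1 / 2 : ℝ) ^ u ^ 3 + 2 ^ N * (1 / 2 ^ 2 ^ (u + 3)) ≤ 4 * (1 / 2 : ℝ) ^ u ^ 3 := by
  have h1 : N + u ^ 3 ≤ 2 ^ (u + 3) := by
    have h2 := cube_le u (by omega)
    have h3 : 2 ^ (u + 3) = 8 * 2 ^ u := by ring
    omega
  have h4 : (2 : ℝ) ^ N * (1 / 2 ^ 2 ^ (u + 3)) ≤ (1 / 2 : ℝ) ^ u ^ 3 := by
    rw [one_div_pow, mul_one_div, div_le_div_iff₀ (by positivity) (by positivity), one_mul,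
      ← pow_add]
    exact pow_le_pow_right₀ (by norm_num) h1
  have h5 : (0 : ℝ) ≤ (1 / 2 : ℝ) ^ u ^ 3 := by positivity
  linarith

theorem expo (s u : ℕ) (hs : 19 ≤ s) (hu : s < u) : s ^ 3 + (u - s) + u + 2 ≤ u ^ 3 := by
  obtain ⟨j, rfl⟩ : ∃ j, u = s + 1 + j := ⟨u - s - 1, by omega⟩
  have h1 : s + 1 + j - s = 1 + j := by omega
  rw [h1]
  have e : (s + 1 + j) ^ 3 = s ^ 3 + 3 * (s * s) * (1 + j) + 3 * s * (1 + j) ^ 2 + (1 + j) ^ 3 := by
    ring
  rw [e]
  have h2 : 19 * 19 ≤ s * s := Nat.mul_le_mul hs hs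
  have h3 : 19 * 19 * (1 + j) ≤ s * s * (1 + j) := Nat.mul_le_mul_right _ h2
  have h4 : s * 1 ≤ s * (1 + j) ^ 2 := Nat.mul_le_mul_left s (Nat.one_le_pow _ _ (by omega))
  have h5 : 3 * (s * s) * (1 + j) = 3 * (s * s * (1 + j)) := by ring
  have h6 : 3 * s * (1 + j) ^ 2 = 3 * (s * (1 + j) ^ 2) := by ring
  rw [h5, h6]
  omega

theorem geo (s : ℕ) (T : Finset ℕ) (hT : ∀ y ∈ T, s < y) : ∑ y ∈ T, (1 / 2 : ℝ) ^ (y - s) ≤ 1 := by
  have h1 : ∑ y ∈ T, (1 / 2 : ℝ) ^ (y - s) =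
      ∑ j ∈ T.image (fun y => y - s - 1), (1 / 2 : ℝ) ^ (j + 1) := by
    rw [Finset.sum_image]
    · refine Finset.sum_congr rfl fun y hy => ?_
      have := hT y hy
      congr 1
      omega
    · intro a ha b hb hab
      have h2 := hT a ha
      have h3 := hT b hb
      simp only at hab
      omega
  rw [h1]
  have h2 : Summable fun j : ℕ => (1 / 2 : ℝ) ^ (j + 1) := by
    have h3 : (fun j : ℕ => (1 / 2 : ℝ) ^ (j + 1)) = fun j => 1 / 2 * (1 / 2 : ℝ) ^ j := by
      funext j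
      ring
    rw [h3]
    exact summable_geometric_two.mul_left _
  refine (h2.sum_le_tsum _ fun j _ => by positivity).trans (le_of_eq ?_)
  have h3 : (fun j : ℕ => (1 / 2 : ℝ) ^ (j + 1)) = fun j => 1 / 2 * (1 / 2 : ℝ) ^ j := by
    funext j
    ring
  rw [h3, tsum_mul_left, tsum_geometric_two]
  norm_num

theorem sum_le (V : ℕ → Local) (E : Finset (ℕ × List Bool)) (s : ℕ) (hs : 19 ≤ s)
    (F : Finset {a // a ∈ E}) (hF : ∀ p ∈ F, s < scl V p.1) :
    ∑ p ∈ F, (4 * (1 / 2 : ℝ) ^ scl V p.1 ^ 3) ≤ (1 / 2) ^ s ^ 3 := by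
  classical
  rw [← Finset.sum_fiberwise_of_maps_to (t := F.image fun p => scl V p.1) (g := fun p => scl V p.1)
    (fun p hp => Finset.mem_image_of_mem _ hp)]
  have h1 : ∀ y ∈ F.image (fun p => scl V p.1),
      ∑ p ∈ F with scl V p.1 = y, (4 * (1 / 2 : ℝ) ^ scl V p.1 ^ 3) ≤
        (1 / 2) ^ s ^ 3 * (1 / 2) ^ (y - s) := by
    intro y hy
    obtain ⟨p₀, hp₀, hy₀⟩ := Finset.mem_image.1 hy
    have hsy : s < y := by
      rw [← hy₀]
      exact hF p₀ hp₀
    have h2 : ∑ p ∈ F with scl V p.1 = y, (4 * (1 / 2 : ℝ) ^ scl V p.1 ^ 3) =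
        ((F.filter fun p => scl V p.1 = y).card : ℝ) * (4 * (1 / 2 : ℝ) ^ y ^ 3) := by
      rw [← nsmul_eq_mul, ← Finset.sum_const]
      refine Finset.sum_congr rfl fun p hp => ?_
      rw [(Finset.mem_filter.1 hp).2]
    have h3 : (F.filter fun p => scl V p.1 = y).card ≤ 2 ^ y :=
      cntS V E y _ fun a ha => (Finset.mem_filter.1 ha).2.le
    have h3' : ((F.filter fun p => scl V p.1 = y).card : ℝ) ≤ 2 ^ y := by exact_mod_cast h3
    have h4 := expo s y hs hsy
    rw [h2]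
    calc ((F.filter fun p => scl V p.1 = y).card : ℝ) * (4 * (1 / 2 : ℝ) ^ y ^ 3)
        ≤ 2 ^ y * (4 * (1 / 2 : ℝ) ^ y ^ 3) := mul_le_mul_of_nonneg_right h3' (by positivity)
      _ = 2 ^ (y + 2) * (1 / 2 : ℝ) ^ y ^ 3 := by ring
      _ ≤ 2 ^ (y + 2) * (1 / 2 : ℝ) ^ (s ^ 3 + (y - s) + (y + 2)) := by
        refine mul_le_mul_of_nonneg_left ?_ (by positivity)
        exact pow_le_pow_of_le_one (by norm_num) (by norm_num) (by omega)
      _ = (1 / 2) ^ s ^ 3 * (1 / 2) ^ (y - s) * ((2 * (1 / 2)) ^ (y + 2)) := by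
        rw [pow_add, pow_add, mul_pow]
        ring
      _ = (1 / 2) ^ s ^ 3 * (1 / 2) ^ (y - s) := by norm_num
  refine (Finset.sum_le_sum h1).trans ?_
  rw [← Finset.mul_sum]
  have h5 := geo s (F.image fun p => scl V p.1) fun y hy => by
    obtain ⟨p, hp, rfl⟩ := Finset.mem_image.1 hy
    exact hF p hp
  calc (1 / 2 : ℝ) ^ s ^ 3 * ∑ y ∈ F.image (fun p => scl V p.1), (1 / 2 : ℝ) ^ (y - s)
      ≤ (1 / 2) ^ s ^ 3 * 1 := mul_le_mul_of_nonneg_left h5 (by positivity)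
    _ = (1 / 2) ^ s ^ 3 := mul_one _

/-- CTN: the number of the instances, and the sums of the errors. -/
theorem pf_CTN : T_CTN := by
  intro V E
  have hterm : ∀ p : {a // a ∈ E}, 2 * (1 / 2 : ℝ) ^ scl (lx V) p.1 ^ 3 +
      2 ^ (univ.filter fun i : {a // a ∈ E} => scl (lx V) i.1 ≤ scl (lx V) p.1).card *
        (1 / 2 ^ 2 ^ (scl (lx V) p.1 + 3)) ≤ 4 * (1 / 2 : ℝ) ^ scl (lx V) p.1 ^ 3 := by
    intro p
    have h1 := scl_ge (lx V) p.1
    refine term_le _ _ (by omega) ?_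
    exact cntS (lx V) E _ _ fun a ha => (Finset.mem_filter.1 ha).2
  refine ⟨?_, ?_, ?_⟩
  · intro r
    refine cnt r _ fun a ha => ?_
    exact (scl_ge (lx V) a).trans (Finset.mem_filter.1 ha).2
  · refine (Finset.sum_le_sum fun p _ => hterm p).trans ?_
    refine (sum_le (lx V) E 19 le_rfl univ fun p _ => ?_).trans ?_
    · have h1 := scl_ge (lx V) p.1
      omega
    · have h2 : (1 / 2 : ℝ) ^ 19 ^ 3 ≤ (1 / 2) ^ 2 :=
        pow_le_pow_of_le_one (by norm_num) (by norm_num) (by norm_num)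
      refine h2.trans ?_
      norm_num
  · intro s hs
    refine (Finset.sum_le_sum fun p _ => hterm p).trans ?_
    exact sum_le (lx V) E s (by omega) _ fun p hp => (Finset.mem_filter.1 hp).2

end Pool.Agent.H40.XX
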