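import Pool.Agent.H18.XX.TA
import Pool.Agent.H17.EX.RWK

/-!
# The exponential hierarchy in EQP: row ONR (a game does not see one copy, relative to an event)
-/

set_option autoImplicit false

namespace Pool.Agent.H40.XX

open Finset Pool.Agent.H6.NB Pool.Agent.H70.EH Pool.Agent.H78.XQ Pool.Agent.H66.IQ
open Pool.Agent.H18.XX

theorem card_VV (q : ℕ) : (Fintype.card (VV q) : ℝ) = 2 * 2 ^ q := by
  have h : Fintype.card (VV q) = 2 * 2 ^ q := by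
    unfold VV
    simp
  rw [h]
  push_cast
  rfl

/-- the leaf which reads all variables -/
def lfA (q : ℕ) (A : (VV q → Bool) → Bool) : Lf (VV q) where
  f := A
  Q := fun _ => Finset.univ
  path := fun y y' h => by
    have : y' = y := funext fun v => h v (Finset.mem_univ v)
    rw [this]
    exact ⟨rfl, rfl⟩

theorem onr_num (A K R k β s e X X₁ F₁ F₀ G₁ G₀ : ℝ) (hA : 1 ≤ A) (hkK : k ≤ K) (hk : 1 ≤ k)
    (hβ : 1 ≤ β) (hR : 0 ≤ R) (he : 0 ≤ e) (hs : β * β ≤ s) (hAK : A * (4000 * K) ≤ β)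
    (hX : 0 ≤ X)
    (hD : |F₁ - F₀| ≤ A * (4000 * β * K) / s * X + 2 * (A * R + e))
    (hE : |X₁ - X| ≤ A * (4000 * β * K) / s * X + 2 * (A * R + e))
    (hG1 : F₁ ≤ G₁ ∧ G₁ ≤ F₁ + k / β * X₁) (hG0 : F₀ ≤ G₀ ∧ G₀ ≤ F₀ + k / β * X) :
    |G₁ - G₀| ≤ A * (4003 * K / β) * X + 4 * (A * R + e) := by
  have hβ0 : 0 < β := by linarith
  have hs0 : 0 < s := lt_of_lt_of_le (mul_pos hβ0 hβ0) hs
  have hK0 : 0 ≤ K := by linarith
  have hA0 : 0 ≤ A := by linarith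
  obtain ⟨u, hu⟩ : ∃ u : ℝ, u = A * (4000 * β * K) / s := ⟨_, rfl⟩
  obtain ⟨v, hv⟩ : ∃ v : ℝ, v = A * (4000 * K) / β := ⟨_, rfl⟩
  obtain ⟨κ, hκ⟩ : ∃ κ : ℝ, κ = k / β := ⟨_, rfl⟩
  obtain ⟨T, hT⟩ : ∃ T : ℝ, T = A * R + e := ⟨_, rfl⟩
  have hT0 : 0 ≤ T := by rw [hT]; positivity
  have hu0 : 0 ≤ u := by rw [hu]; positivity
  have huv : u ≤ v := by
    rw [hu, hv, div_le_div_iff₀ hs0 hβ0]
    have h1 : A * (4000 * β * K) * β = A * (4000 * K) * (β * β) := by ring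
    rw [h1]
    exact mul_le_mul_of_nonneg_left hs (by positivity)
  have hv1 : v ≤ 1 := by rw [hv]; exact (div_le_one hβ0).2 hAK
  have hκ0 : 0 ≤ κ := by rw [hκ]; positivity
  have hκv : κ ≤ A * (K / β) := by
    rw [hκ]
    have h1 : k / β ≤ K / β := div_le_div_of_nonneg_right hkK hβ0.le
    have h2 : 0 ≤ K / β := div_nonneg hK0 hβ0.le
    nlinarith
  have hκ1 : κ ≤ 1 := by
    have h1 : v = 4000 * (A * (K / β)) := by rw [hv]; ring
    have h2 : 0 ≤ A * (K / β) := mul_nonneg hA0 (div_nonneg hK0 hβ0.le)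
    linarith
  rw [← hu, ← hT] at hD hE
  rw [← hκ] at hG1 hG0
  rw [← hT]
  have hfin : A * (4003 * K / β) = v + 3 * (A * (K / β)) := by rw [hv]; ring
  rw [hfin]
  have d1 := abs_le.1 hD
  have d2 := abs_le.1 hE
  have huX : u * X ≤ v * X := mul_le_mul_of_nonneg_right huv hX
  have hX1 : X₁ ≤ X + u * X + 2 * T := by linarith [d2.2]
  have hκX1 : κ * X₁ ≤ κ * X + κ * (u * X) + κ * (2 * T) := by
    have := mul_le_mul_of_nonneg_left hX1 hκ0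
    linarith
  have h3 : κ * (u * X) ≤ κ * X := by
    apply mul_le_mul_of_nonneg_left _ hκ0
    calc u * X ≤ 1 * X := mul_le_mul_of_nonneg_right (huv.trans hv1) hX
      _ = X := one_mul X
  have h4 : κ * (2 * T) ≤ 2 * T := by
    calc κ * (2 * T) ≤ 1 * (2 * T) := mul_le_mul_of_nonneg_right hκ1 (by linarith)
      _ = 2 * T := one_mul _
  have h5 : κ * X ≤ A * (K / β) * X := mul_le_mul_of_nonneg_right hκv hX
  have h6 : 0 ≤ A * (K / β) * X :=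
    mul_nonneg (mul_nonneg hA0 (div_nonneg hK0 hβ0.le)) hX
  have e1 : (v + 3 * (A * (K / β))) * X = v * X + 3 * (A * (K / β) * X) := by ring
  rw [e1, abs_le]
  constructor
  · linarith [d1.1, hG1.1, hG0.2]
  · linarith [d1.2, hG1.2, hG0.1]

theorem avg_le {X : Type} [Fintype X] (μ G H B : X → ℝ) (η : ℝ) (hm : ∀ p, 0 ≤ μ p)
    (h : ∀ p, G p ≤ H p ∧ H p ≤ G p + η * B p) :
    ∑ p, μ p * G p ≤ ∑ p, μ p * H p ∧
      ∑ p, μ p * H p ≤ ∑ p, μ p * G p + η * ∑ p, μ p * B p := by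
  constructor
  · exact Finset.sum_le_sum fun p _ => mul_le_mul_of_nonneg_left (h p).1 (hm p)
  · rw [Finset.mul_sum, ← Finset.sum_add_distrib]
    refine Finset.sum_le_sum fun p _ => ?_
    have := mul_le_mul_of_nonneg_left (h p).2 (hm p)
    linarith

/-- ONR: a game whose leaves are formulas does not see one copy, relative to the event. -/
theorem pf_ONR (hEVR : T_EVR) (hEVS : T_EVS) (hRTR : T_RTR) (hG3R : T_G3R)
    (hRWK : Pool.Agent.H17.EX.T_RWK) (hMUV : Pool.Agent.H70.EH.T_MUV) : T_ONR := by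
  intro q k m S d w t A hq hk hw hcc hdp hcb hcl hsup hsmall
  have hB1 : (1 : ℝ) ≤ 2 ^ (q / 4) := one_le_pow₀ (by norm_num)
  obtain ⟨β, hβ⟩ : ∃ β : ℝ, β = 2 ^ (q / 4) := ⟨_, rfl⟩
  rw [← hβ] at hB1 hsmall ⊢
  have hB0 : (0 : ℝ) < β := by linarith
  obtain ⟨M, hM⟩ : ∃ M : ℝ, M = (128 * (w : ℝ)) ^ (2 * (d + 1)) := ⟨_, rfl⟩
  obtain ⟨R, hR⟩ : ∃ R : ℝ, R = (2 * 2 ^ q) ^ 2 * 2 ^ m * ((S : ℝ) + 1) ^ (d + 1) / 2 ^ w :=
    ⟨_, rfl⟩
  obtain ⟨K, hK⟩ : ∃ K : ℝ, K = (k : ℝ) ^ 2 * (m + 1) * (w : ℝ) ^ 2 := ⟨_, rfl⟩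
  have hw' : (1 : ℝ) ≤ w := by exact_mod_cast hw
  have hk' : (1 : ℝ) ≤ k := by exact_mod_cast hk
  have hM1 : 1 ≤ M := by
    rw [hM]
    exact one_le_pow₀ (by linarith)
  have hR0 : 0 ≤ R := by
    rw [hR]
    positivity
  have hm' : (1 : ℝ) ≤ (m : ℝ) + 1 := by
    have : (0 : ℝ) ≤ m := Nat.cast_nonneg m
    linarith
  have hkk : (k : ℝ) ≤ k ^ 2 := by nlinarith
  have hww : (1 : ℝ) ≤ (w : ℝ) ^ 2 := by nlinarith
  have hkK : (k : ℝ) ≤ K := by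
    have h1 : (k : ℝ) ^ 2 * 1 ≤ (k : ℝ) ^ 2 * (m + 1) :=
      mul_le_mul_of_nonneg_left hm' (by positivity)
    have h2 : (k : ℝ) ^ 2 * (m + 1) * 1 ≤ (k : ℝ) ^ 2 * (m + 1) * (w : ℝ) ^ 2 :=
      mul_le_mul_of_nonneg_left hww (by positivity)
    rw [hK]
    linarith
  have hAK : M * (4000 * K) ≤ β := by
    rw [hM, hK]
    refine le_trans (le_of_eq ?_) hsmall
    ring
  -- the second level of a game, relative to the event, after a restriction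
  have hL : ∀ (t₁ : Tr (VV q)), t₁.cc ≤ k → t₁.dp ≤ m → t₁.Cb S (d + 1) →
      (∀ y, A y = false → t₁.ev y = 0) → ∀ ρ, L12 (rst ρ (t₁.sv β)) ≤
        M * (4000 * β * K) * mn (rst ρ fun y => bi (A y)) + M * R := by
    intro t₁ hc1 hd1 hb1 hs1 ρ
    obtain ⟨t', h1, h2, -, h4, h5, h6⟩ := hRTR (VV q) t₁ ρ
    have e : rst ρ (t₁.sv β) = t'.sv β := funext fun y => (h6 β y).symm
    have h7 := hG3R (VV q) β k m S d w t' (rst ρ A) hB1 hk hw (h1.trans hc1) (h2.trans hd1)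
      (h4 S (d + 1) hb1) (fun y hy => by
        rw [h5 y]
        exact hs1 _ hy)
    rw [e]
    refine h7.trans (le_of_eq ?_)
    rw [card_VV q, ← hM, hK, hR]
    have e2 : (rst ρ fun y => bi (A y)) = fun y => bi (rst ρ A y) := rfl
    rw [e2]
    ring
  have hF : ∀ y, 0 ≤ t.sv β y ∧ t.sv β y ≤ t.ev y ∧ t.ev y ≤ 1 ∧ t.ev y ≤ t.sv β y + t.cc / β :=
    fun y => hEVS (VV q) β t y hB0
  have hbi : ∀ y, 0 ≤ bi (A y) ∧ bi (A y) ≤ 1 := by
    intro y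
    unfold bi
    cases A y <;> norm_num
  have hs : √((2 : ℝ) ^ q) = √(2 ^ q) := rfl
  have hsq : β * β ≤ √(2 ^ q) := by
    apply Real.le_sqrt_of_sq_le
    rw [hβ, ← pow_add, ← pow_mul]
    exact pow_le_pow_right₀ (by norm_num) (by omega)
  have hK0 : 0 ≤ K := by linarith
  have hΛ0 : 0 ≤ M * (4000 * β * K) := by positivity
  have hΛs : M * (4000 * β * K) ≤ √(2 ^ q) := by
    refine le_trans ?_ hsq
    have h1 : M * (4000 * β * K) = M * (4000 * K) * β := by ring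
    rw [h1]
    exact mul_le_mul_of_nonneg_right hAK hB0.le
  have hτ0 : 0 ≤ M * R := by positivity
  have hLF := hL t hcc hdp hcb hsup
  have hLB : ∀ ρ, L12 (rst ρ fun y => bi (A y)) ≤
      M * (4000 * β * K) * mn (rst ρ fun y => bi (A y)) + M * R := by
    have h := hL (Tr.lf (lfA q A)) (Nat.zero_le k) (Nat.zero_le m) hcl (fun y hy => by
      show bi (A y) = 0
      rw [hy]
      rfl)
    exact h
  have hD := hRWK q (t.sv β) (fun y => bi (A y)) _ _ hq hΛ0 hΛs hτ0 hLF hLB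
    (fun y => abs_le.2 ⟨by linarith [(hF y).1], by linarith [(hF y).2.1, (hF y).2.2.1]⟩) hbi
  have hE := hRWK q (fun y => bi (A y)) (fun y => bi (A y)) _ _ hq hΛ0 hΛs hτ0 hLB hLB
    (fun y => abs_le.2 ⟨by linarith [(hbi y).1], (hbi y).2⟩) hbi
  obtain ⟨m1, s1, -⟩ := hMUV true q
  obtain ⟨m0, s0, -⟩ := hMUV false q
  have hkc : (t.cc : ℝ) / β ≤ k / β :=
    div_le_div_of_nonneg_right (by exact_mod_cast hcc) hB0.le
  have hb : ∀ p, t.sv β p ≤ t.ev p ∧ t.ev p ≤ t.sv β p + k / β * bi (A p) := by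
    intro p
    obtain ⟨h1, h2⟩ := hEVR (VV q) β t A hB0 hsup p
    refine ⟨h1, h2.trans ?_⟩
    have := mul_le_mul_of_nonneg_right hkc (hbi p).1
    linarith
  have hX : 0 ≤ ∑ p, mv false q p * bi (A p) :=
    Finset.sum_nonneg fun p _ => mul_nonneg (m0 p) (hbi p).1
  have hfin := onr_num M K R k β (√(2 ^ q)) (1 / 2 ^ 2 ^ (q - 2))
    (∑ p, mv false q p * bi (A p)) (∑ p, mv true q p * bi (A p))
    (∑ p, mv true q p * t.sv β p) (∑ p, mv false q p * t.sv β p)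
    (∑ p, mv true q p * t.ev p) (∑ p, mv false q p * t.ev p)
    hM1 hkK hk' hB1 hR0 (by positivity) hsq hAK hX hD hE
    (avg_le _ _ _ _ _ m1 hb) (avg_le _ _ _ _ _ m0 hb)
  rw [← hM, ← hR]
  refine hfin.trans (le_of_eq ?_)
  rw [hK]
  ring

end Pool.Agent.H40.XX
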